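import Pool.Agent.Lib.MP_c55a01_nt.Alph.Defs

namespace Pool.Agent.Lib.MP_c55a01_nt.Alph

theorem IsKAutomatic.map {α β : Type} {k : ℕ} {a : ℕ → α} (ha : IsKAutomatic k a) (g : α → β) :
    IsKAutomatic k (fun n => g (a n)) := by
  constructor
  · refine (ha.1.image g).subset ?_
    rintro _ ⟨n, rfl⟩
    exact ⟨a n, ⟨n, rfl⟩, rfl⟩
  · refine (ha.2.image (fun f : ℕ → α => fun n => g (f n))).subset ?_
    rintro _ ⟨e, j, hj, rfl⟩
    exact ⟨_, ⟨e, j, hj, rfl⟩, rfl⟩

theorem IsKAutomatic.pair {α β : Type} {k : ℕ} {a : ℕ → α} {b : ℕ → β}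
    (ha : IsKAutomatic k a) (hb : IsKAutomatic k b) : IsKAutomatic k (fun n => (a n, b n)) := by
  constructor
  · refine (ha.1.prod hb.1).subset ?_
    rintro _ ⟨n, rfl⟩
    exact ⟨⟨n, rfl⟩, ⟨n, rfl⟩⟩
  · refine ((ha.2.prod hb.2).image
      (fun f : (ℕ → α) × (ℕ → β) => fun n => (f.1 n, f.2 n))).subset ?_
    rintro _ ⟨e, j, hj, rfl⟩
    exact ⟨(fun n => a (k ^ e * n + j), fun n => b (k ^ e * n + j)),
      ⟨⟨e, j, hj, rfl⟩, ⟨e, j, hj, rfl⟩⟩, rfl⟩

/-- The state sequence of a finite automaton reading digits most significant first. -/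
theorem automatic_of_state {Q : Type} [Finite Q] (k : ℕ) (hk : 0 < k) (s : ℕ → Q)
    (δ : Q → ℕ → Q) (hs : ∀ m i, i < k → s (k * m + i) = δ (s m) i) : IsKAutomatic k s := by
  have key : ∀ e j, j < k ^ e → ∃ φ : Q → Q, ∀ n, s (k ^ e * n + j) = φ (s n) := by
    intro e
    induction e with
    | zero =>
      intro j hj
      refine ⟨id, fun n => ?_⟩
      have : j = 0 := by simpa using hj
      simp [this]
    | succ e ih =>
      intro j hj
      have h1 : j / k < k ^ e := by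
        rw [Nat.div_lt_iff_lt_mul hk]; rwa [pow_succ] at hj
      obtain ⟨φ, hφ⟩ := ih (j / k) h1
      refine ⟨fun q => δ (φ q) (j % k), fun n => ?_⟩
      have h2 : k ^ (e + 1) * n + j = k * (k ^ e * n + j / k) + j % k := by
        have := Nat.div_add_mod j k
        rw [pow_succ]; nlinarith
      rw [h2, hs _ _ (Nat.mod_lt _ hk), hφ]
  refine ⟨Set.toFinite _, ?_⟩
  refine (Set.finite_range (fun φ : Q → Q => fun n => φ (s n))).subset ?_
  rintro _ ⟨e, j, hj, rfl⟩
  obtain ⟨φ, hφ⟩ := key e j hj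
  exact ⟨φ, funext fun n => by simp [hφ]⟩

/-- The run of a family of state maps along a sequence. -/
def trace {S Q : Type} (σ : ℕ → S) (q : Q) (B : S → Q → Q) : ℕ → Q
  | 0 => q
  | n + 1 => B (σ n) (trace σ q B n)

/-- The states of a finite automaton reading an automatic sequence from the left. -/
theorem IsKAutomatic.transduce {α Q : Type} [Finite Q] {k : ℕ} {a : ℕ → α}
    (ha : IsKAutomatic k a) (δ : Q → α → Q) (s : ℕ → Q) (hs : ∀ n, s (n + 1) = δ (s n) (a n)) :
    IsKAutomatic k s := by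
  refine ⟨Set.toFinite _, ?_⟩
  have : Finite (kernel k a) := ha.2
  have : Finite (Set.range a) := ha.1
  have hmem : ∀ (f : kernel k a) (n : ℕ), f.1 n ∈ Set.range a := by
    rintro ⟨f, e, j, hj, rfl⟩ n
    exact ⟨_, rfl⟩
  let σ : ℕ → (kernel k a → Set.range a) := fun n f => ⟨f.1 n, hmem f n⟩
  have key : ∀ e j, j ≤ k ^ e → ∃ C : (kernel k a → Set.range a) → Q → Q,
      ∀ n, s (k ^ e * n + j) = C (σ n) (s (k ^ e * n)) := by
    intro e j
    induction j with
    | zero => intro _; exact ⟨fun _ q => q, fun n => rfl⟩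
    | succ j ih =>
      intro hj
      obtain ⟨C, hC⟩ := ih (by omega)
      refine ⟨fun x q => δ (C x q) (x ⟨fun n => a (k ^ e * n + j), e, j, by omega, rfl⟩).1,
        fun n => ?_⟩
      rw [← Nat.add_assoc, hs, hC]
  refine (Set.finite_range (fun BC : ((kernel k a → Set.range a) → Q → Q) ×
    ((kernel k a → Set.range a) → Q → Q) =>
      fun n => BC.2 (σ n) (trace σ (s 0) BC.1 n))).subset ?_
  rintro _ ⟨e, j, hj, rfl⟩
  obtain ⟨B, hB⟩ := key e (k ^ e) le_rfl
  obtain ⟨C, hC⟩ := key e j hj.le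
  have hT : ∀ n, s (k ^ e * n) = trace σ (s 0) B n := by
    intro n
    induction n with
    | zero => simp [trace]
    | succ n ih => rw [Nat.mul_succ, hB, ih]; rfl
  refine ⟨(B, C), funext fun n => ?_⟩
  show C (σ n) (trace σ (s 0) B n) = s (k ^ e * n + j)
  rw [hC, hT]

/-- Stretching an automaton sequence into blocks of length `L`, shifted by one. -/
theorem automatic_block {Q : Type} [Finite Q] (k : ℕ) (hk : 0 < k) (s : ℕ → Q)
    (δ : Q → ℕ → Q) (hs : ∀ m i, i < k → s (k * m + i) = δ (s m) i) (L : ℕ) (hL : 0 < L)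
    {β : Type} (g : Q → ℕ → β) :
    IsKAutomatic k (fun n => g (s ((n - 1) / L)) ((n - 1) % L)) := by
  have h := automatic_of_state (Q := Q × Fin L) k hk
    (fun n => (s (n / L), ⟨n % L, Nat.mod_lt _ hL⟩))
    (fun q i => (δ q.1 ((k * q.2.val + i) / L), ⟨(k * q.2.val + i) % L, Nat.mod_lt _ hL⟩))
    (by
      intro m i hi
      have hm := Nat.div_add_mod m L
      have hlt := Nat.mod_lt m hL
      have e0 : k * m + i = (k * (m % L) + i) + L * (k * (m / L)) := by
        conv_lhs => rw [← hm]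
        ring
      refine Prod.ext ?_ ?_
      · show s ((k * m + i) / L) = δ (s (m / L)) ((k * (m % L) + i) / L)
        have h2 : (k * (m % L) + i) / L < k := by
          rw [Nat.div_lt_iff_lt_mul hL]
          have : k * (m % L + 1) ≤ k * L := Nat.mul_le_mul_left _ hlt
          nlinarith
        rw [e0, Nat.add_mul_div_left _ _ hL, Nat.add_comm, hs _ _ h2]
      · apply Fin.ext
        show (k * m + i) % L = (k * (m % L) + i) % L
        rw [e0, Nat.add_mul_mod_self_left])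
  have h2 := h.transduce (fun _ x => x)
    (fun n => ((s ((n - 1) / L), ⟨(n - 1) % L, Nat.mod_lt _ hL⟩) : Q × Fin L))
    (by intro n; simp)
  exact h2.map (fun q => g q.1 q.2.val)

/-- An automatic sequence repeats along two geometric dilations. -/
theorem IsAutomatic.dilate {β : Type} {f : ℕ → β} (hf : IsAutomatic f) :
    ∃ c Q : ℕ, 1 ≤ c ∧ 2 ≤ Q ∧ ∀ n, f (c * n) = f (c * (Q * n)) := by
  obtain ⟨q, hq, -, hfin⟩ := hf
  have hmaps : Set.MapsTo (fun e : ℕ => fun n => f (q ^ e * n + 0)) Set.univ (kernel q f) := by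
    intro e _
    exact ⟨e, 0, by positivity, rfl⟩
  obtain ⟨e1, -, e2, -, hlt, heq⟩ :=
    Set.infinite_univ.exists_lt_map_eq_of_mapsTo hmaps hfin
  obtain ⟨d, rfl⟩ : ∃ d, e2 = e1 + (d + 1) := ⟨e2 - e1 - 1, by omega⟩
  refine ⟨q ^ e1, q ^ (d + 1), Nat.one_le_pow _ _ (by omega), ?_, ?_⟩
  · have : 1 ≤ q ^ d := Nat.one_le_pow _ _ (by omega)
    rw [pow_succ]; nlinarith
  · intro n
    have := congrFun heq n
    simp only [Nat.add_zero] at this
    rw [this, pow_add, mul_assoc]

end Pool.Agent.Lib.MP_c55a01_nt.Alph
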