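import Pool.Agent.Lib.MP_c55a01_nt.Alph.Rot

namespace Pool.Agent.Lib.MP_c55a01_nt.Alph

/-- The sign update used when the leading term decides the sign. -/
def sdl (q : Option (SignType × SignType)) (σ : SignType) : Option (SignType × SignType) :=
  match q with
  | none => some (0, 1)
  | some (u, v) => some (if σ * u = 0 then v else σ * u, u)

theorem automatic_of_dominant {k : ℕ} {a : ℕ → ℝ} (ha : IsKAutomatic k a)
    (hdom : ∀ n, a (n + 1) * (vec a n).1 ≠ 0 →
      0 < a (n + 1) * (vec a n).1 * (a (n + 1) * (vec a n).1 + (vec a n).2)) :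
    IsKAutomatic k (fun n => SignType.sign (recSeq a n)) := by
  let s : ℕ → Option (SignType × SignType) := fun n =>
    match n with
    | 0 => none
    | n + 1 => some (SignType.sign (vec a n).1, SignType.sign (vec a n).2)
  have hs : ∀ n, s (n + 1) = sdl (s n) (SignType.sign (a n)) := by
    intro n
    rcases n with _ | n
    · simp [s, sdl, vec]
    · simp only [s, sdl, vec, step, Option.some.injEq, Prod.mk.injEq, and_true]
      rw [← sign_mul]
      by_cases h : a (n + 1) * (vec a n).1 = 0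
      · rw [h]; simp
      · rw [if_neg (by rwa [sign_eq_zero_iff])]
        have h1 := hdom n h
        rcases lt_or_gt_of_ne h with c | c
        · rw [sign_neg c, sign_neg (by nlinarith)]
        · rw [sign_pos c, sign_pos (by nlinarith)]
  have h1 := ha.transduce (fun q x => sdl q (SignType.sign x)) s hs
  have h2 := (h1.pair ha).map
    (fun z => ((sdl z.1 (SignType.sign z.2)).getD (0, 0)).1)
  have e : (fun n => SignType.sign (recSeq a n)) =
      fun n => ((sdl (s n) (SignType.sign (a n))).getD (0, 0)).1 := by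
    funext n
    rw [← hs, ← vec_fst]; rfl
  rw [e]; exact h2

theorem good_same {k : ℕ} {a : ℕ → ℝ} (ha : IsKAutomatic k a)
    (h : ∀ m n, 0 ≤ a m * a n) : IsKAutomatic k (fun n => SignType.sign (recSeq a n)) := by
  have inv : ∀ n m, 0 ≤ a m * ((vec a n).1 * (vec a n).2) := by
    intro n
    induction n with
    | zero => intro m; simp [vec]
    | succ n ih =>
      intro m
      have h1 := ih m
      have h2 := mul_nonneg (h m (n + 1)) (mul_self_nonneg (vec a n).1)
      simp only [vec, step]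
      nlinarith
  refine automatic_of_dominant ha (fun n hn => ?_)
  have h1 := inv n (n + 1)
  have h2 := mul_self_pos.2 hn
  nlinarith

theorem good_mixed {k : ℕ} {a : ℕ → ℝ} (ha : IsKAutomatic k a)
    (h : ∀ m n, 0 < a m * a n ∨ a m * a n ≤ -4) :
    IsKAutomatic k (fun n => SignType.sign (recSeq a n)) := by
  have inv : ∀ n m, 0 ≤ a m * (vec a n).1 * (a m * (vec a n).1 + 2 * (vec a n).2) := by
    intro n
    induction n with
    | zero => intro m; simp [vec]
    | succ n ih =>
      intro m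
      have h1 := ih (n + 1)
      simp only [vec, step]
      generalize (vec a n).1 = x at h1 ⊢
      generalize (vec a n).2 = y at h1 ⊢
      have h2 := h m (n + 1)
      have h3 := h (n + 1) (n + 1)
      generalize a (n + 1) = c at h1 h2 h3 ⊢
      generalize a m = d at h2 ⊢
      have hc : 0 < c * c := by
        rcases h3 with h3 | h3
        · exact h3
        · nlinarith [mul_self_nonneg c]
      set w := c * x + y with hw
      have h4 : (c * x) ^ 2 ≤ 2 * (c * x * w) := by rw [hw]; nlinarith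
      have h5 : 0 ≤ c * x * w := by nlinarith [sq_nonneg (c * x)]
      have h6 : 0 ≤ (c * c) * (d * w * (d * w + 2 * x)) := by
        rcases h2 with h2 | h2
        · have := mul_nonneg h2.le h5
          nlinarith [sq_nonneg (c * d * w)]
        · have h7 : (c * x) ^ 2 ≤ 4 * w ^ 2 := by
            by_contra hcon
            have hcon' : 4 * w ^ 2 < (c * x) ^ 2 := not_le.1 hcon
            have h8 : (c * x) ^ 2 * (c * x) ^ 2 ≤ (2 * (c * x * w)) * (2 * (c * x * w)) :=
              mul_self_le_mul_self (sq_nonneg _) h4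
            have h9 : 0 < (c * x) ^ 2 := by nlinarith [sq_nonneg w]
            nlinarith
          have h8 : c * x * w ≤ 2 * w ^ 2 := by nlinarith [sq_nonneg (c * x - 2 * w)]
          have h9 : 0 ≤ -(d * c) * (-(d * c) * w ^ 2 - 2 * (c * x * w)) := by
            apply mul_nonneg (by linarith)
            nlinarith [sq_nonneg w]
          nlinarith
      exact le_of_mul_le_mul_left (by simpa using h6) hc
  refine automatic_of_dominant ha (fun n hn => ?_)
  have h1 := inv n (n + 1)
  have h2 := mul_self_pos.2 hn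
  nlinarith

theorem good_real {k : ℕ} {A : Set ℝ}
    (hA : ∀ x ∈ A, ∀ y ∈ A, 0 < x → y < 0 → x * y ≤ -4 ∧ (0 : ℝ) ∉ A)
    {a : ℕ → ℝ} (haA : ∀ n, a n ∈ A) (ha : IsKAutomatic k a) :
    IsKAutomatic k (fun n => SignType.sign (recSeq a n)) := by
  by_cases h : ∀ m n, 0 ≤ a m * a n
  · exact good_same ha h
  · push Not at h
    obtain ⟨m0, n0, h⟩ := h
    have h0 : (0 : ℝ) ∉ A := by
      rcases mul_neg_iff.1 h with ⟨c1, c2⟩ | ⟨c1, c2⟩
      · exact (hA _ (haA m0) _ (haA n0) c1 c2).2
      · exact (hA _ (haA n0) _ (haA m0) c2 c1).2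
    have hne : ∀ n, a n ≠ 0 := fun n hn => h0 (hn ▸ haA n)
    refine good_mixed ha (fun m n => ?_)
    rcases lt_or_gt_of_ne (mul_ne_zero (hne m) (hne n)) with c | c
    · right
      rcases mul_neg_iff.1 c with ⟨c1, c2⟩ | ⟨c1, c2⟩
      · exact (hA _ (haA m) _ (haA n) c1 c2).1
      · rw [mul_comm]; exact (hA _ (haA n) _ (haA m) c2 c1).1
    · exact Or.inl c

theorem bad_real {k : ℕ} (hk : 2 ≤ k) {A : Set ℝ}
    (hA : ¬ ∀ x ∈ A, ∀ y ∈ A, 0 < x → y < 0 → x * y ≤ -4 ∧ (0 : ℝ) ∉ A) : Bad k A := by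
  push Not at hA
  obtain ⟨x, hx, y, hy, h1, h2, h3⟩ := hA
  by_cases h : x * y ≤ -4
  · exact bad_of_zero hk (h3 h) h1 h2 (sim_of_mem hx) (sim_of_mem hy)
  · exact bad_of_elliptic hk h1 h2 (not_le.1 h) (sim_of_mem hx) (sim_of_mem hy)

/-- Two monotone additive maps to the reals that agree at `1` agree. -/
theorem add_hom_le {R : Type} [Ring R] [LinearOrder R] (φ ψ : R →+ ℝ) (hφ : Monotone φ)
    (hψ : Monotone ψ) (h1 : φ 1 = ψ 1) (hpos : 0 < φ 1) (y : R) : ψ y ≤ φ y := by
  by_contra hcon
  have hlt : φ y / φ 1 < ψ y / φ 1 := div_lt_div_of_pos_right (not_le.1 hcon) hpos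
  obtain ⟨q, q1, q2⟩ := exists_rat_btwn hlt
  have hd : (0 : ℝ) < q.den := by exact_mod_cast q.den_pos
  have h3 : (q.den : ℝ) * q = q.num := by exact_mod_cast q.den_mul_eq_num
  rw [div_lt_iff₀ hpos] at q1
  rw [lt_div_iff₀ hpos] at q2
  rcases le_total (q.den • y) (q.num • (1 : R)) with h | h
  · have := hψ h
    rw [map_nsmul, map_zsmul, nsmul_eq_mul, zsmul_eq_mul, ← h1, ← h3] at this
    nlinarith
  · have := hφ h
    rw [map_nsmul, map_zsmul, nsmul_eq_mul, zsmul_eq_mul, ← h3] at this
    nlinarith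

theorem exists_embedding (R : Type) [Ring R] [LinearOrder R] [IsStrictOrderedRing R]
    [Archimedean R] : ∃ ι : R →+* ℝ, StrictMono ι := by
  let e : R →+ ℝ := (Archimedean.embedReal R).toAddMonoidHom
  have he : StrictMono e := Archimedean.embedRealFun_strictMono R
  have he1 : e 1 = 1 := Archimedean.embedReal_one (M := R)
  have hpos : ∀ x : R, 0 < x → ∀ y, e (x * y) = e x * e y := by
    intro x hx y
    have hex : 0 < e x := by simpa using he hx
    let φ : R →+ ℝ := e.comp (AddMonoidHom.mulLeft x)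
    let ψ : R →+ ℝ := (AddMonoidHom.mulLeft (e x)).comp e
    have hφ : Monotone φ := fun u v h => he.monotone (mul_le_mul_of_nonneg_left h hx.le)
    have hψ : Monotone ψ := fun u v h => mul_le_mul_of_nonneg_left (he.monotone h) hex.le
    have h1 : φ 1 = ψ 1 := by simp [φ, ψ, he1]
    have h2 : 0 < φ 1 := by simpa [φ] using hex
    exact le_antisymm (add_hom_le ψ φ hψ hφ h1.symm (h1 ▸ h2) y) (add_hom_le φ ψ hφ hψ h1 h2 y)
  have hmul : ∀ x y : R, e (x * y) = e x * e y := by
    intro x y
    rcases lt_trichotomy x 0 with h | h | h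
    · have := hpos (-x) (neg_pos.2 h) y
      rw [neg_mul, map_neg, map_neg, neg_mul] at this
      exact neg_injective this
    · simp [h]
    · exact hpos x h y
  exact ⟨{ e with map_one' := he1, map_mul' := hmul }, he⟩

theorem recSeq_map {R : Type} [Ring R] (ι : R →+* ℝ) (a : ℕ → R) (n : ℕ) :
    recSeq (fun m => ι (a m)) n = ι (recSeq a n) := by
  have : ∀ n, recSeq (fun m => ι (a m)) n = ι (recSeq a n) ∧
      recSeq (fun m => ι (a m)) (n + 1) = ι (recSeq a (n + 1)) := by
    intro n
    induction n with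
    | zero => simp [recSeq]
    | succ n ih =>
      refine ⟨ih.2, ?_⟩
      simp only [recSeq, map_add, map_mul] at ih ⊢
      rw [ih.1, ih.2]
  exact (this n).1

theorem classification {R : Type} [Ring R] [LinearOrder R] [IsStrictOrderedRing R]
    [Archimedean R] (k : ℕ) (hk : 2 ≤ k) (A : Set R) :
    List.TFAE [
      ∀ a : ℕ → R, (∀ n, a n ∈ A) → IsKAutomatic k a →
        IsKAutomatic k (fun n => SignType.sign (recSeq a n)),
      ∀ a : ℕ → R, (∀ n, a n ∈ A) → IsKAutomatic k a →
        IsAutomatic (fun n => SignType.sign (recSeq a n)),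
      ∀ x ∈ A, ∀ y ∈ A, 0 < x → y < 0 → x * y ≤ -4 ∧ (0 : R) ∉ A] := by
  obtain ⟨ι, hι⟩ := exists_embedding R
  have hsign : ∀ a : ℕ → R, (fun n => SignType.sign (recSeq (fun m => ι (a m)) n)) =
      fun n => SignType.sign (recSeq a n) := by
    intro a
    funext n
    rw [recSeq_map]
    rcases lt_trichotomy (recSeq a n) 0 with h | h | h
    · rw [sign_neg h, sign_neg (by simpa using hι h)]
    · simp [h]
    · rw [sign_pos h, sign_pos (by simpa using hι h)]
  have h4 : ι (-4) = -4 := by rw [map_neg, map_ofNat]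
  have hgood : (∀ x ∈ ι '' A, ∀ y ∈ ι '' A, 0 < x → y < 0 → x * y ≤ -4 ∧ (0 : ℝ) ∉ ι '' A) ↔
      ∀ x ∈ A, ∀ y ∈ A, 0 < x → y < 0 → x * y ≤ -4 ∧ (0 : R) ∉ A := by
    have h0 : (0 : ℝ) ∈ ι '' A ↔ (0 : R) ∈ A := by
      rw [← map_zero ι]; exact hι.injective.mem_set_image
    simp only [Set.forall_mem_image, h0]
    refine forall₄_congr (fun x _ y _ => ?_)
    rw [← map_mul, ← h4, ← map_zero ι, hι.lt_iff_lt, hι.lt_iff_lt, hι.le_iff_le]
  tfae_have 1 → 2 := fun h a haA ha => ⟨k, hk, h a haA ha⟩
  tfae_have 2 → 3 := by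
    intro h
    by_contra hcon
    obtain ⟨a, haA, hak, hna⟩ := bad_real hk (fun h' => hcon (hgood.1 h'))
    choose b hbA hb using haA
    have e : a = fun m => ι (b m) := funext fun m => (hb m).symm
    have e2 : b = fun m => Function.invFun ι (a m) := by
      funext m
      rw [← hb m, Function.leftInverse_invFun hι.injective]
    apply hna
    rw [e, hsign]
    refine h b hbA ?_
    rw [e2]; exact hak.map _
  tfae_have 3 → 1 := by
    intro h a haA ha
    rw [← hsign]
    exact good_real (hgood.2 h) (fun n => ⟨a n, haA n, rfl⟩) (ha.map ι)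
  tfae_finish

end Pool.Agent.Lib.MP_c55a01_nt.Alph
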