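import Pool.Agent.Lib.MP_c55a01_nt.Alph.Word

namespace Pool.Agent.Lib.MP_c55a01_nt.Alph

open Real

theorem sin_flip (τ : ℝ) (Q : ℕ) (hQ : 2 ≤ Q) (h1 : 1 / 2 < Q * τ) (h2 : Q * τ < 1) :
    0 < sin (2 * π * τ) ∧ sin (2 * π * (Q * τ)) < 0 := by
  have hQ' : (2 : ℝ) ≤ Q := by exact_mod_cast hQ
  have hτ : 0 < τ := by
    by_contra h
    nlinarith
  have hτ2 : τ < 1 / 2 := by nlinarith
  have hpi := pi_pos
  refine ⟨sin_pos_of_pos_of_lt_pi (by positivity) (by nlinarith), ?_⟩
  have := sin_pos_of_pos_of_lt_pi (x := 2 * π * (Q * τ) - π) (by nlinarith) (by nlinarith)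
  rw [sin_sub_pi] at this
  linarith

/-- The sign of `sin (2 π n ξ)` is not invariant under a dilation when `ξ` is irrational. -/
theorem rot_not_invariant (ξ : ℝ) (hξ : Irrational ξ) (Q : ℕ) (hQ : 2 ≤ Q)
    (h : ∀ n : ℕ, SignType.sign (sin (2 * π * (n * ξ))) =
      SignType.sign (sin (2 * π * ((Q * n : ℕ) * ξ)))) : False := by
  have hQ' : (2 : ℝ) ≤ Q := by exact_mod_cast hQ
  obtain ⟨n0, hn0, -, hε⟩ := Real.exists_nat_abs_mul_sub_round_le ξ (n := 2 * Q) (by omega)
  set z : ℤ := round ((n0 : ℝ) * ξ)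
  set ε : ℝ := n0 * ξ - z with hεd
  have hε0 : ε ≠ 0 := by
    have : Irrational ((n0 : ℝ) * ξ - z) := (hξ.natCast_mul hn0.ne').sub_intCast z
    exact this.ne_zero
  have ha : 0 < |ε| := abs_pos.2 hε0
  have hb : Q * |ε| < 1 / 2 := by
    rw [le_div_iff₀ (by positivity)] at hε
    push_cast at hε
    nlinarith
  have hQa : 0 < Q * |ε| := by positivity
  set m : ℕ := ⌊1 / (2 * (Q * |ε|))⌋₊ + 1 with hm
  have m1 : 1 / 2 < Q * (m * |ε|) := by
    have := Nat.lt_floor_add_one (1 / (2 * (Q * |ε|)))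
    rw [div_lt_iff₀ (by positivity)] at this
    rw [hm]; push_cast; nlinarith
  have m2 : Q * (m * |ε|) < 1 := by
    have := Nat.floor_le (show 0 ≤ 1 / (2 * (Q * |ε|)) by positivity)
    rw [le_div_iff₀ (by positivity)] at this
    rw [hm]; push_cast; nlinarith
  obtain ⟨s1, s2⟩ := sin_flip _ Q hQ m1 m2
  have h' := h (m * n0)
  have e1 : 2 * π * (((m * n0 : ℕ) : ℝ) * ξ) = 2 * π * (m * ε) + ((m * z : ℤ) : ℝ) * (2 * π) := by
    rw [hεd]; push_cast; ring
  have e2 : 2 * π * (((Q * (m * n0) : ℕ) : ℝ) * ξ) =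
      2 * π * (Q * (m * ε)) + ((Q * m * z : ℤ) : ℝ) * (2 * π) := by
    rw [hεd]; push_cast; ring
  rw [e1, e2, sin_add_int_mul_two_pi, sin_add_int_mul_two_pi] at h'
  rcases abs_choice ε with h0 | h0
  · rw [h0] at s1 s2
    rw [sign_pos s1, sign_neg s2] at h'
    exact absurd h' (by decide)
  · rw [h0] at s1 s2
    have t1 : 2 * π * (m * -ε) = -(2 * π * (m * ε)) := by ring
    have t2 : 2 * π * (Q * (m * -ε)) = -(2 * π * (Q * (m * ε))) := by ring
    rw [t1, sin_neg] at s1
    rw [t2, sin_neg] at s2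
    rw [sign_neg (by linarith), sign_pos (by linarith)] at h'
    exact absurd h' (by decide)

/-- Powers of the product of two steps, in terms of the rotation angle. -/
theorem iter_formula (s t θ : ℝ) (hθ : 2 * cos θ = s * t + 2) (N : ℝ × ℝ → ℝ × ℝ)
    (hN : ∀ p, N p = step (step p t) s) (j : ℕ) (p : ℝ × ℝ) :
    sin θ * (N^[j] p).1 = sin (j * θ) * (N p).1 - sin ((j - 1) * θ) * p.1 ∧
    sin θ * (N^[j] p).2 = sin (j * θ) * (N p).2 - sin ((j - 1) * θ) * p.2 := by
  induction j with
  | zero => simp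
  | succ j ih =>
    have r : sin (((j + 1 : ℕ) : ℝ) * θ) = (s * t + 2) * sin (j * θ) - sin ((j - 1) * θ) := by
      have a1 : ((j + 1 : ℕ) : ℝ) * θ = j * θ + θ := by push_cast; ring
      have a2 : ((j : ℝ) - 1) * θ = j * θ - θ := by ring
      rw [a1, a2, sin_add, sin_sub, ← hθ]; ring
    have r2 : (((j + 1 : ℕ) : ℝ) - 1) * θ = j * θ := by push_cast; ring
    rw [Function.iterate_succ_apply', hN (N^[j] p), r, r2]
    rw [hN p] at ih ⊢
    obtain ⟨i1, i2⟩ := ih
    simp only [step] at i1 i2 ⊢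
    constructor
    · linear_combination (s * t + 1) * i1 + s * i2
    · linear_combination t * i1 + i2

theorem bad_of_elliptic {k : ℕ} (hk : 2 ≤ k) {A : Set ℝ} {s t : ℝ} (hs : 0 < s) (ht : t < 0)
    (hst : -4 < s * t) (h1 : Sim A s) (h2 : Sim A t) : Bad k A := by
  obtain ⟨u, huA, hu⟩ := h1
  obtain ⟨v, hvA, hv⟩ := h2
  have hneg : s * t < 0 := mul_neg_of_pos_of_neg hs ht
  set θ := arccos (1 + s * t / 2) with hθd
  have hcos : 2 * cos θ = s * t + 2 := by
    rw [hθd, cos_arccos (by linarith) (by linarith)]; ring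
  have hsin : 0 < sin θ := sin_pos_of_pos_of_lt_pi (arccos_pos.2 (by linarith))
    (arccos_lt_pi.2 (by linarith))
  have hN : ∀ p, run (v ++ u) p = step (step p t) s := by
    intro p; rw [run_append, hv, hu]
  have hNA : ∀ c ∈ v ++ u, c ∈ A := by
    intro c hc
    rcases List.mem_append.1 hc with h | h
    · exact hvA c h
    · exact huA c h
  have F := iter_formula s t θ hcos (run (v ++ u)) hN
  have hpi := pi_pos
  by_cases hirr : Irrational (θ / (2 * π))
  · have hL : 0 < (v ++ u).length := by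
      rcases hw : v ++ u with _ | ⟨x, w⟩
      · have := congrArg Prod.fst (hN (0, 1))
        rw [hw] at this
        simp [run, step] at this
        exact absurd this.symm hs.ne'
      · simp
    obtain ⟨a, haA, hak, hvec⟩ := exists_blocks (Q := Unit) k (by omega) (fun _ => ())
      (fun _ _ => ()) (fun _ _ _ => rfl) _ hL A (fun _ => v ++ u) (fun _ => rfl)
      (fun _ => hNA)
    have hS : ∀ j, vec a ((v ++ u).length * j) = (run (v ++ u))^[j] (0, 1) := by
      intro j
      induction j with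
      | zero => simp [vec]
      | succ j ih => rw [hvec, ih, Function.iterate_succ_apply']
    have hsign : ∀ j : ℕ, SignType.sign (recSeq a ((v ++ u).length * j)) =
        SignType.sign (sin (j * θ)) := by
      intro j
      have h3 := (F j (0, 1)).1
      rw [hN] at h3
      simp only [step, mul_zero, zero_add, mul_one, add_zero, sub_zero] at h3
      have h4 := congrArg SignType.sign h3
      rw [sign_mul, sign_mul, sign_pos hsin, sign_pos hs, one_mul, mul_one] at h4
      rw [← vec_fst, hS, h4]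
    refine ⟨a, haA, hak, fun h => ?_⟩
    obtain ⟨c, Q, hc, hQ, hinv⟩ := h.dilate
    refine rot_not_invariant (c * (θ / (2 * π))) (hirr.natCast_mul (by omega)) Q hQ (fun n => ?_)
    have h3 := hinv ((v ++ u).length * n)
    have e1 : c * ((v ++ u).length * n) = (v ++ u).length * (c * n) := by ring
    have e2 : c * (Q * ((v ++ u).length * n)) = (v ++ u).length * (c * (Q * n)) := by ring
    simp only [e1, e2, hsign] at h3
    have e3 : 2 * π * (n * (c * (θ / (2 * π)))) = ((c * n : ℕ) : ℝ) * θ := by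
      push_cast; field_simp
    have e4 : 2 * π * (((Q * n : ℕ) : ℝ) * (c * (θ / (2 * π)))) =
        ((c * (Q * n) : ℕ) : ℝ) * θ := by
      push_cast; field_simp
    rw [e3, e4]; exact h3
  · obtain ⟨q, hq⟩ : ∃ q : ℚ, (q : ℝ) = θ / (2 * π) := by
      unfold Irrational at hirr
      exact not_not.1 hirr
    obtain ⟨m, hm⟩ : ∃ m, q.den = m + 1 := ⟨q.den - 1, by have := q.den_pos; omega⟩
    have hmθ : ((m + 1 : ℕ) : ℝ) * θ = (q.num : ℝ) * (2 * π) := by
      have h3 : (q.den : ℝ) * q = q.num := by exact_mod_cast q.den_mul_eq_num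
      rw [← hm, ← h3, hq]; field_simp
    have hid : ∀ p, (run (v ++ u))^[m + 1] p = p := by
      intro p
      obtain ⟨i1, i2⟩ := F (m + 1) p
      have a1 : sin (((m + 1 : ℕ) : ℝ) * θ) = 0 := by
        rw [hmθ, ← zero_add ((q.num : ℝ) * (2 * π)), sin_add_int_mul_two_pi, sin_zero]
      have a2 : sin ((((m + 1 : ℕ) : ℝ) - 1) * θ) = -sin θ := by
        rw [sub_mul, hmθ, one_mul, sub_eq_neg_add, sin_add_int_mul_two_pi, sin_neg]
      rw [a1, a2] at i1 i2
      exact Prod.ext (mul_left_cancel₀ hsin.ne' (by linarith))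
        (mul_left_cancel₀ hsin.ne' (by linarith))
    refine bad_of_tr hk (c := s - t) (by linarith) ⟨u ++ (rep (v ++ u) m ++ u), ?_, ?_⟩
      ⟨rep (v ++ u) m ++ (v ++ v), ?_, ?_⟩
    · intro c hc
      simp only [List.mem_append] at hc
      rcases hc with h | h | h
      · exact huA c h
      · exact rep_mem hNA _ c h
      · exact huA c h
    · intro p
      have h3 := hid (p.2, p.1 - t * p.2)
      rw [Function.iterate_succ_apply, hN] at h3
      have h4 : step (p.2, p.1 - t * p.2) t = p := by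
        refine Prod.ext ?_ rfl
        simp [step]
      rw [h4] at h3
      rw [run_append, run_append, hu, run_rep, hu p, h3]
      refine Prod.ext ?_ rfl
      simp only [step]; ring
    · intro c hc
      simp only [List.mem_append] at hc
      rcases hc with h | h | h
      · exact rep_mem hNA _ c h
      · exact hvA c h
      · exact hvA c h
    · intro p
      have h3 := hid p
      rw [Function.iterate_succ_apply', hN] at h3
      rw [run_append, run_append, run_rep, hv, hv]
      generalize step ((run (v ++ u))^[m] p) t = w at h3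
      rw [← h3]
      refine Prod.ext ?_ rfl
      simp only [step]; ring

theorem sim_of_mem {A : Set ℝ} {s : ℝ} (hs : s ∈ A) : Sim A s :=
  ⟨[s], by simpa using hs, fun _ => rfl⟩

theorem sim_add {A : Set ℝ} (h0 : (0 : ℝ) ∈ A) {s t : ℝ} (h1 : Sim A s) (h2 : Sim A t) :
    Sim A (s + t) := by
  obtain ⟨u, huA, hu⟩ := h1
  obtain ⟨v, hvA, hv⟩ := h2
  refine ⟨u ++ ([0] ++ v), ?_, fun p => ?_⟩
  · intro c hc
    simp only [List.mem_append, List.mem_singleton] at hc
    rcases hc with h | h | h
    · exact huA c h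
    · rwa [h]
    · exact hvA c h
  · rw [run_append, run_append, hu, hv]
    refine Prod.ext ?_ ?_ <;> simp [run, step]
    ring

theorem tr_of_sim {A : Set ℝ} (h0 : (0 : ℝ) ∈ A) {s : ℝ} (h1 : Sim A s) : Tr A s := by
  obtain ⟨u, huA, hu⟩ := h1
  refine ⟨[0] ++ u, ?_, fun p => ?_⟩
  · intro c hc
    simp only [List.mem_append, List.mem_singleton] at hc
    rcases hc with h | h
    · rwa [h]
    · exact huA c h
  · rw [run_append, hu]
    refine Prod.ext ?_ ?_ <;> simp [run, step]
    ring

/-- Subtractive descent when `0` is a letter. -/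
theorem bad_of_zero {k : ℕ} (hk : 2 ≤ k) {A : Set ℝ} (h0 : (0 : ℝ) ∈ A) {x y : ℝ} (hx : 0 < x)
    (hy : y < 0) (h1 : Sim A x) (h2 : Sim A y) : Bad k A := by
  set B := x - y with hB
  have hBpos : 0 < B := by linarith
  have key : ∀ n : ℕ, ∀ s t : ℝ, 0 < s → t < 0 → s - t ≤ B → (s - t) * B ≤ n → Sim A s →
      Sim A t → Bad k A := by
    intro n
    induction n with
    | zero =>
      intro s t hs ht _ h _ _
      have : 0 < (s - t) * B := mul_pos (by linarith) hBpos
      simp at h; linarith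
    | succ n ih =>
      intro s t hs ht hb h g1 g2
      by_cases he : -4 < s * t
      · exact bad_of_elliptic hk hs ht he g1 g2
      have he' : s * t ≤ -4 := not_lt.1 he
      push_cast at h
      rcases lt_trichotomy (s + t) 0 with c | c | c
      · refine ih s (s + t) hs c (by linarith) ?_ g1 (sim_add h0 g1 g2)
        nlinarith
      · have : t = -s := by linarith
        rw [this] at g2
        exact bad_of_tr hk hs (tr_of_sim h0 g1) (tr_of_sim h0 g2)
      · refine ih (s + t) t c ht (by linarith) ?_ (sim_add h0 g1 g2) g2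
        nlinarith
  obtain ⟨n, hn⟩ := exists_nat_ge (B * B)
  exact key n x y hx hy le_rfl hn h1 h2

end Pool.Agent.Lib.MP_c55a01_nt.Alph
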