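import Pool.Agent.Lib.MP_c55a01_nt.Alph.Auto

namespace Pool.Agent.Lib.MP_c55a01_nt.Alph

/-- States: `none` for zero, else (the number of digits is odd, the number is a power). -/
def dl (q : Option (Bool × Bool)) (i : ℕ) : Option (Bool × Bool) :=
  match q with
  | none => if i = 0 then none else some (true, decide (i = 1))
  | some (p, w) => some (!p, w && decide (i = 0))

def st (k : ℕ) (n : ℕ) : Option (Bool × Bool) :=
  if _h : n = 0 ∨ k < 2 then none else dl (st k (n / k)) (n % k)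
termination_by n
decreasing_by exact Nat.div_lt_self (by omega) (by omega)

theorem st_zero (k : ℕ) : st k 0 = none := by rw [st]; simp

theorem st_eq {k : ℕ} (hk : 2 ≤ k) (n : ℕ) : st k n = dl (st k (n / k)) (n % k) := by
  by_cases h : n = 0
  · subst h; simp [st_zero, dl]
  · rw [st, dif_neg (by omega)]

theorem st_digit {k : ℕ} (hk : 2 ≤ k) (m i : ℕ) (hi : i < k) :
    st k (k * m + i) = dl (st k m) i := by
  rw [st_eq hk, Nat.mul_add_div (by omega), Nat.div_eq_of_lt hi, Nat.mul_add_mod,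
    Nat.mod_eq_of_lt hi, Nat.add_zero]

theorem st_int {k : ℕ} (hk : 2 ≤ k) (e : ℕ) : ∀ n, k ^ e ≤ n → n < k ^ (e + 1) →
    st k n = some (decide (e % 2 = 0), decide (n = k ^ e)) := by
  induction e with
  | zero =>
    intro n h1 h2
    simp only [pow_zero, Nat.zero_add, pow_one] at h1 h2
    rw [st_eq hk, Nat.div_eq_of_lt h2, Nat.mod_eq_of_lt h2, st_zero]
    simp [dl]; omega
  | succ e ih =>
    intro n h1 h2
    have hd := Nat.div_add_mod n k
    have hm := Nat.mod_lt n (show 0 < k by omega)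
    have a1 : k ^ e ≤ n / k := by
      rw [Nat.le_div_iff_mul_le (by omega)]; rwa [pow_succ] at h1
    have a2 : n / k < k ^ (e + 1) := by
      rw [Nat.div_lt_iff_lt_mul (by omega)]; rwa [pow_succ] at h2
    rw [st_eq hk, ih _ a1 a2]
    simp only [dl, Option.some.injEq, Prod.mk.injEq]
    constructor
    · rcases Nat.mod_two_eq_zero_or_one e with h | h
      · have : (e + 1) % 2 ≠ 0 := by omega
        simp [h, this]
      · have : (e + 1) % 2 = 0 := by omega
        simp [h, this]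
    · by_cases h : n = k ^ (e + 1)
      · have b1 : n / k = k ^ e := by
          rw [h, pow_succ, Nat.mul_div_cancel _ (by omega)]
        have b2 : n % k = 0 := by rw [h, pow_succ, Nat.mul_mod_left]
        rw [b1, b2]; simp [h]
      · have : ¬ (n / k = k ^ e ∧ n % k = 0) := by
          rintro ⟨b1, b2⟩
          apply h
          rw [← hd, b1, b2, pow_succ]; ring
        simp only [h, decide_false, Bool.and_eq_false_iff, decide_eq_false_iff_not]
        tauto

/-- The step attached to a state. -/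
def out (k : ℕ) (q : Option (Bool × Bool)) : ℤ :=
  match q with
  | none => 0
  | some (true, true) => 0
  | some (true, false) => -k
  | some (false, _) => 1

/-- The walk. -/
def SS (k : ℕ) (M : ℕ) : ℤ := ∑ m ∈ Finset.range M, out k (st k m)

theorem SS_succ (k M : ℕ) : SS k (M + 1) = SS k M + out k (st k M) := Finset.sum_range_succ _ _

theorem SS_block {k : ℕ} (hk : 2 ≤ k) (e : ℕ) (h0 : SS k (k ^ (2 * e)) = k * e) :
    (∀ i, k ^ (2 * e) + 1 + i ≤ k ^ (2 * e + 1) → SS k (k ^ (2 * e) + 1 + i) = k * e - k * i) ∧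
    (∀ i, k ^ (2 * e + 1) + i ≤ k ^ (2 * e + 2) → SS k (k ^ (2 * e + 1) + i) =
      k * (e + 1) - ((k ^ (2 * e + 2) : ℕ) : ℤ) + ((k ^ (2 * e + 1) : ℕ) : ℤ) + i) := by
  have hp : k ^ (2 * e) < k ^ (2 * e + 1) := Nat.pow_lt_pow_right (by omega) (by omega)
  have A : ∀ i, k ^ (2 * e) + 1 + i ≤ k ^ (2 * e + 1) →
      SS k (k ^ (2 * e) + 1 + i) = k * e - k * i := by
    intro i
    induction i with
    | zero =>
      intro _
      rw [Nat.add_zero, SS_succ, h0, st_int hk (2 * e) _ le_rfl hp]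
      simp [out]
    | succ i ih =>
      intro hi
      rw [← Nat.add_assoc, SS_succ, ih (by omega), st_int hk (2 * e) _ (by omega) (by omega)]
      have : ¬ (k ^ (2 * e) + 1 + i = k ^ (2 * e)) := by omega
      simp only [this, Nat.mul_mod_right, decide_true, decide_false, out]
      push_cast; ring
  refine ⟨A, ?_⟩
  intro i
  induction i with
  | zero =>
    intro _
    obtain ⟨d, hd⟩ : ∃ d, k ^ (2 * e + 1) = k ^ (2 * e) + 1 + d :=
      ⟨k ^ (2 * e + 1) - (k ^ (2 * e) + 1), by omega⟩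
    have h1 := A d hd.ge
    rw [← hd] at h1
    rw [Nat.add_zero, h1]
    have h2 : (d : ℤ) = (k : ℤ) ^ (2 * e + 1) - (k : ℤ) ^ (2 * e) - 1 := by
      have := congrArg (Nat.cast : ℕ → ℤ) hd
      push_cast at this
      linarith
    rw [h2]; push_cast; ring
  | succ i ih =>
    intro hi
    rw [← Nat.add_assoc, SS_succ, ih (by omega),
      st_int hk (2 * e + 1) _ (by omega) (show _ < k ^ (2 * e + 2) by omega)]
    have : ¬ ((2 * e + 1) % 2 = 0) := by omega
    simp only [this, decide_false, out]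
    push_cast; ring

theorem SS_pow {k : ℕ} (hk : 2 ≤ k) (e : ℕ) : SS k (k ^ (2 * e)) = k * e := by
  induction e with
  | zero => simp [SS, st_zero, out]
  | succ e ih =>
    have hp : k ^ (2 * e + 1) ≤ k ^ (2 * e + 2) := Nat.pow_le_pow_right (by omega) (by omega)
    obtain ⟨d, hd⟩ := Nat.exists_eq_add_of_le hp
    have h1 := (SS_block hk e ih).2 d hd.ge
    rw [← hd] at h1
    have e1 : 2 * (e + 1) = 2 * e + 2 := by ring
    rw [e1, h1]
    have := congrArg (Nat.cast : ℕ → ℤ) hd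
    push_cast at this ⊢
    linarith

theorem exists_block {k : ℕ} (hk : 2 ≤ k) (M : ℕ) (hM : 2 ≤ M) :
    ∃ e, k ^ (2 * e) < M ∧ M ≤ k ^ (2 * e + 2) := by
  induction M, hM using Nat.le_induction with
  | base => exact ⟨0, by norm_num, by simp; nlinarith⟩
  | succ M hM ih =>
    obtain ⟨j, h1, h2⟩ := ih
    by_cases h : M + 1 ≤ k ^ (2 * j + 2)
    · exact ⟨j, by omega, h⟩
    · have e1 : 2 * (j + 1) = 2 * j + 2 := by ring
      have hp : k ^ (2 * j + 2) < k ^ (2 * j + 2 + 2) :=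
        Nat.pow_lt_pow_right (by omega) (by omega)
      refine ⟨j + 1, ?_, ?_⟩ <;> rw [e1] <;> omega

theorem near_of_nonneg {k : ℕ} (hk : 2 ≤ k) (M : ℕ) (hM : 2 ≤ M) (h : 0 ≤ SS k M) :
    ∃ j, M ≤ k ^ (2 * j) + k * (j + 1) ∧ k ^ (2 * j) ≤ M + k * (j + 1) := by
  obtain ⟨e, h1, h2⟩ := exists_block hk M hM
  obtain ⟨A, B⟩ := SS_block hk e (SS_pow hk e)
  by_cases hc : M ≤ k ^ (2 * e + 1)
  · obtain ⟨i, rfl⟩ : ∃ i, M = k ^ (2 * e) + 1 + i := ⟨M - (k ^ (2 * e) + 1), by omega⟩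
    rw [A i hc] at h
    have hi : i ≤ e := by
      by_contra hcon
      have : (e : ℤ) < i := by exact_mod_cast not_le.1 hcon
      have hk' : (0 : ℤ) < k := by exact_mod_cast (show 0 < k by omega)
      nlinarith
    have : e + 1 ≤ k * (e + 1) := Nat.le_mul_of_pos_left _ (by omega)
    exact ⟨e, by omega, by omega⟩
  · obtain ⟨i, rfl⟩ : ∃ i, M = k ^ (2 * e + 1) + i := ⟨M - k ^ (2 * e + 1), by omega⟩
    rw [B i h2] at h
    have e1 : 2 * (e + 1) = 2 * e + 2 := by ring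
    have h3 : k ^ (2 * e + 2) ≤ k ^ (2 * e + 1) + i + k * (e + 1) := by
      have : ((k ^ (2 * e + 2) : ℕ) : ℤ) ≤
          ((k ^ (2 * e + 1) : ℕ) : ℤ) + i + ((k * (e + 1) : ℕ) : ℤ) := by
        rw [Nat.cast_mul, Nat.cast_add e 1, Nat.cast_one]; linarith
      exact_mod_cast this
    have : k * (e + 1) ≤ k * (e + 1 + 1) := Nat.mul_le_mul_left _ (by omega)
    refine ⟨e + 1, ?_, ?_⟩ <;> rw [e1] <;> omega

theorem pos_of_near {k : ℕ} (hk : 2 ≤ k) (e M : ℕ) (h1 : k ^ (2 * e + 1) ≤ M)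
    (h2 : M ≤ k ^ (2 * e + 2)) (h3 : k ^ (2 * e + 2) < M + k * (e + 1)) : 0 < SS k M := by
  obtain ⟨i, rfl⟩ := Nat.exists_eq_add_of_le h1
  rw [(SS_block hk e (SS_pow hk e)).2 i h2]
  have : ((k ^ (2 * e + 2) : ℕ) : ℤ) <
      ((k ^ (2 * e + 1) : ℕ) : ℤ) + i + ((k * (e + 1) : ℕ) : ℤ) := by exact_mod_cast h3
  rw [Nat.cast_mul, Nat.cast_add e 1, Nat.cast_one] at this
  linarith

theorem exists_pos_pair {k : ℕ} (hk : 2 ≤ k) (c : ℕ) (hc : 1 ≤ c) :
    ∃ m, 2 ≤ m ∧ 0 < SS k (c * m) ∧ 0 < SS k (c * (m + 1)) := by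
  have h1 : 2 * c + 1 < 2 ^ (2 * c + 1) := Nat.lt_two_pow_self
  have h2 : 2 ^ (2 * c + 1) ≤ k ^ (2 * c + 1) := Nat.pow_le_pow_left hk _
  have h3 : 2 * k ^ (2 * c + 1) ≤ k ^ (2 * c + 2) := by
    rw [pow_succ k (2 * c + 1)]; nlinarith
  have h4 : 2 * (c + 1) ≤ k * (c + 1) := Nat.mul_le_mul_right _ hk
  have hdm := Nat.div_add_mod (k ^ (2 * c + 2)) c
  have hml : k ^ (2 * c + 2) % c < c := Nat.mod_lt _ (by omega)
  have hm3 : 3 ≤ k ^ (2 * c + 2) / c := by
    rw [Nat.le_div_iff_mul_le (by omega)]; omega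
  obtain ⟨m, hm⟩ : ∃ m, k ^ (2 * c + 2) / c = m + 1 := ⟨k ^ (2 * c + 2) / c - 1, by omega⟩
  rw [hm] at hdm hm3
  have e1 : c * (m + 1) = c * m + c := by ring
  rw [e1] at hdm
  refine ⟨m, by omega, ?_, ?_⟩
  · apply pos_of_near hk c <;> omega
  · rw [e1]; apply pos_of_near hk c <;> omega

theorem no_pair {k : ℕ} (hk : 2 ≤ k) (m D : ℕ) (hm : 2 ≤ m)
    (hD : 3 * (k * (k * (3 * m + 4))) < D)
    (n1 : 0 ≤ SS k (D * m)) (n2 : 0 ≤ SS k (D * (m + 1))) : False := by
  have hDm : 2 * D ≤ D * m := by nlinarith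
  have e : D * (m + 1) = D * m + D := by ring
  obtain ⟨j1, a1, b1⟩ := near_of_nonneg hk _ (by omega) n1
  obtain ⟨j2, a2, b2⟩ := near_of_nonneg hk _ (by omega) n2
  have small : ∀ j, k ^ (2 * j) ≤ D * (m + 1) + k * (j + 1) → 3 * (k * (j + 1)) < D := by
    intro j hj
    by_contra hcon
    have hcon' : D ≤ 3 * (k * (j + 1)) := by omega
    have h0 : j + 1 ≤ k ^ j :=
      le_trans (Nat.succ_le_of_lt Nat.lt_two_pow_self) (Nat.pow_le_pow_left hk _)
    have h1 : (j + 1) * (j + 1) ≤ k ^ (2 * j) := by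
      rw [two_mul, pow_add]; exact Nat.mul_le_mul h0 h0
    have h2 : D * (m + 1) ≤ 3 * (k * (j + 1)) * (m + 1) := Nat.mul_le_mul_right _ hcon'
    have h3 : (j + 1) * (j + 1) ≤ (k * (3 * m + 4)) * (j + 1) := by nlinarith
    have h4 : j + 1 ≤ k * (3 * m + 4) := Nat.le_of_mul_le_mul_right h3 (by omega)
    have h5 : k * (j + 1) ≤ k * (k * (3 * m + 4)) := Nat.mul_le_mul_left _ h4
    omega
  have f1 := small j1 (by omega)
  have f2 := small j2 b2
  rcases le_or_gt j2 j1 with h | h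
  · have : k ^ (2 * j2) ≤ k ^ (2 * j1) := Nat.pow_le_pow_right (by omega) (by omega)
    omega
  · have h1 : k ^ (2 * j1 + 1) ≤ k ^ (2 * j2) := Nat.pow_le_pow_right (by omega) (by omega)
    have h2 : 2 * k ^ (2 * j1) ≤ k ^ (2 * j1 + 1) := by rw [pow_succ]; nlinarith
    omega

/-- The sign of the walk is not invariant under a dilation. -/
theorem walk_not_invariant {k : ℕ} (hk : 2 ≤ k) (c Q : ℕ) (hc : 1 ≤ c) (hQ : 2 ≤ Q)
    (h : ∀ n, 0 < SS k (c * n) → 0 < SS k (c * (Q * n))) : False := by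
  have hiter : ∀ t n, 0 < SS k (c * n) → 0 < SS k (c * (Q ^ t * n)) := by
    intro t
    induction t with
    | zero => intro n hn; simpa using hn
    | succ t ih =>
      intro n hn
      have e : Q ^ (t + 1) * n = Q * (Q ^ t * n) := by ring
      rw [e]; exact h _ (ih n hn)
  obtain ⟨m, hm, p1, p2⟩ := exists_pos_pair hk c hc
  have hD : ∀ t : ℕ, t < c * Q ^ t := by
    intro t
    have h1 : t < 2 ^ t := Nat.lt_two_pow_self
    have h2 : 2 ^ t ≤ Q ^ t := Nat.pow_le_pow_left hQ t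
    have h3 : Q ^ t ≤ c * Q ^ t := Nat.le_mul_of_pos_left _ hc
    omega
  refine no_pair hk m _ hm (hD _) ?_ ?_
  · rw [mul_assoc]; exact (hiter _ _ p1).le
  · rw [mul_assoc]; exact (hiter _ _ p2).le

end Pool.Agent.Lib.MP_c55a01_nt.Alph
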