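import Pool.Agent.Lib.MP_c55a01_nt.Alph.Walk

namespace Pool.Agent.Lib.MP_c55a01_nt.Alph

/-- One step of the recurrence on the pair (current term, previous term). -/
def step (p : ℝ × ℝ) (c : ℝ) : ℝ × ℝ := (c * p.1 + p.2, p.1)

/-- The action of a word. -/
def run (w : List ℝ) (p : ℝ × ℝ) : ℝ × ℝ := w.foldl step p

/-- The pair (r n, r (n-1)), with r (-1) = 1. -/
def vec (a : ℕ → ℝ) : ℕ → ℝ × ℝ
  | 0 => (0, 1)
  | n + 1 => step (vec a n) (a (n + 1))

theorem vec_fst (a : ℕ → ℝ) (n : ℕ) : (vec a n).1 = recSeq a n := by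
  have : ∀ n, (vec a n).1 = recSeq a n ∧ (vec a (n + 1)).1 = recSeq a (n + 1) := by
    intro n
    induction n with
    | zero => simp [vec, step, recSeq]
    | succ n ih =>
      refine ⟨ih.2, ?_⟩
      show a (n + 2) * (vec a (n + 1)).1 + (vec a n).1 = _
      rw [ih.1, ih.2]; rfl
  exact (this n).1

theorem run_append (u v : List ℝ) (p : ℝ × ℝ) : run (u ++ v) p = run v (run u p) := by
  simp [run, List.foldl_append]

/-- The word `w` repeated `j` times. -/
def rep (w : List ℝ) : ℕ → List ℝ
  | 0 => []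
  | j + 1 => w ++ rep w j

theorem rep_length (w : List ℝ) (j : ℕ) : (rep w j).length = j * w.length := by
  induction j with
  | zero => simp [rep]
  | succ j ih => simp [rep, ih]; ring

theorem rep_mem {A : Set ℝ} {w : List ℝ} (hw : ∀ c ∈ w, c ∈ A) (j : ℕ) :
    ∀ c ∈ rep w j, c ∈ A := by
  induction j with
  | zero => simp [rep]
  | succ j ih =>
    intro c hc
    rcases List.mem_append.1 hc with h | h
    · exact hw c h
    · exact ih c h

theorem run_rep (w : List ℝ) (j : ℕ) (p : ℝ × ℝ) : run (rep w j) p = (run w)^[j] p := by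
  induction j generalizing p with
  | zero => rfl
  | succ j ih => rw [rep, run_append, ih, Function.iterate_succ_apply]

/-- Some `k`-automatic sequence over `A` has a sign sequence that is automatic in no base. -/
def Bad (k : ℕ) (A : Set ℝ) : Prop :=
  ∃ a : ℕ → ℝ, (∀ n, a n ∈ A) ∧ IsKAutomatic k a ∧
    ¬ IsAutomatic (fun n => SignType.sign (recSeq a n))

/-- Concatenating blocks of equal length chosen by an automaton. -/
theorem exists_blocks {Q : Type} [Finite Q] (k : ℕ) (hk : 0 < k) (s : ℕ → Q)
    (δ : Q → ℕ → Q) (hs : ∀ m i, i < k → s (k * m + i) = δ (s m) i) (L : ℕ) (hL : 0 < L)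
    (A : Set ℝ) (W : Q → List ℝ) (hlen : ∀ q, (W q).length = L) (hA : ∀ q, ∀ c ∈ W q, c ∈ A) :
    ∃ a : ℕ → ℝ, (∀ n, a n ∈ A) ∧ IsKAutomatic k a ∧
      ∀ j, vec a (L * (j + 1)) = run (W (s j)) (vec a (L * j)) := by
  refine ⟨fun n => (W (s ((n - 1) / L))).getD ((n - 1) % L) 0, ?_,
    automatic_block k hk s δ hs L hL (fun q i => (W q).getD i 0), ?_⟩
  · intro n
    have h : (n - 1) % L < (W (s ((n - 1) / L))).length := by
      rw [hlen]; exact Nat.mod_lt _ hL
    refine hA (s ((n - 1) / L)) _ ?_
    show (W (s ((n - 1) / L))).getD ((n - 1) % L) 0 ∈ _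
    rw [List.getD_eq_getElem _ _ h]
    exact List.getElem_mem h
  · intro j
    set a : ℕ → ℝ := fun n => (W (s ((n - 1) / L))).getD ((n - 1) % L) 0 with ha
    have key : ∀ i, i ≤ L → vec a (L * j + i) = run ((W (s j)).take i) (vec a (L * j)) := by
      intro i
      induction i with
      | zero => intro _; simp [run]
      | succ i ih =>
        intro hi
        have h : i < (W (s j)).length := by rw [hlen]; omega
        have e1 : (L * j + i + 1 - 1) / L = j := by
          rw [Nat.add_sub_cancel, Nat.mul_add_div hL, Nat.div_eq_of_lt (by omega), Nat.add_zero]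
        have e2 : (L * j + i + 1 - 1) % L = i := by
          rw [Nat.add_sub_cancel, Nat.mul_add_mod, Nat.mod_eq_of_lt (by omega)]
        have e3 : a (L * j + i + 1) = (W (s j))[i] := by
          simp only [ha, e1, e2]
          exact List.getD_eq_getElem _ _ h
        rw [← Nat.add_assoc, vec, ih (by omega), e3, List.take_succ_eq_append_getElem h,
          run_append]
        rfl
    rw [Nat.mul_succ, key L le_rfl, List.take_of_length_le (by rw [hlen])]

/-- Some word over `A` acts as the shear with parameter `c`. -/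
def Tr (A : Set ℝ) (c : ℝ) : Prop :=
  ∃ w : List ℝ, (∀ x ∈ w, x ∈ A) ∧ ∀ p : ℝ × ℝ, run w p = (p.1 + c * p.2, p.2)

/-- Some word over `A` acts as one step with coefficient `s`. -/
def Sim (A : Set ℝ) (s : ℝ) : Prop :=
  ∃ w : List ℝ, (∀ x ∈ w, x ∈ A) ∧ ∀ p : ℝ × ℝ, run w p = step p s

theorem run_rep_tr {w : List ℝ} {c : ℝ} (hw : ∀ p : ℝ × ℝ, run w p = (p.1 + c * p.2, p.2))
    (j : ℕ) (p : ℝ × ℝ) : run (rep w j) p = (p.1 + j * c * p.2, p.2) := by
  induction j generalizing p with
  | zero => simp [rep, run]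
  | succ j ih =>
    rw [rep, run_append, hw, ih]
    refine Prod.ext ?_ rfl
    push_cast; ring

theorem bad_of_tr {k : ℕ} (hk : 2 ≤ k) {A : Set ℝ} {c : ℝ} (hc : 0 < c) (h1 : Tr A c)
    (h2 : Tr A (-c)) : Bad k A := by
  obtain ⟨U, hUA, hU⟩ := h1
  obtain ⟨V, hVA, hV⟩ := h2
  have hl : 0 < U.length := by
    rcases U with _ | ⟨x, U⟩
    · have := congrArg Prod.fst (hU (0, 1))
      simp [run] at this
      exact absurd this.symm hc.ne'
    · simp
  have hl' : 0 < V.length := by
    rcases V with _ | ⟨x, V⟩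
    · have := congrArg Prod.fst (hV (0, 1))
      simp [run] at this
      exact absurd this hc.ne'
    · simp
  set l1 := U.length
  set l2 := V.length
  let eu : Option (Bool × Bool) → ℕ := fun q =>
    match q with
    | none => l1 + k * l2
    | some (true, true) => l1 + k * l2
    | some (true, false) => l1
    | some (false, _) => l1 + (k + 1) * l2
  let ev : Option (Bool × Bool) → ℕ := fun q =>
    match q with
    | none => l1 + k * l2
    | some (true, true) => l1 + k * l2
    | some (true, false) => (k + 1) * l1 + k * l2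
    | some (false, _) => k * l2
  have hL : 0 < (l1 + k * l2) * (l1 + l2) := by positivity
  obtain ⟨a, haA, hak, hvec⟩ := exists_blocks k (by omega) (st k) dl (st_digit hk) _ hL A
    (fun q => rep U (eu q) ++ rep V (ev q))
    (by
      intro q
      rw [List.length_append, rep_length, rep_length]
      rcases q with _ | ⟨_ | _, _ | _⟩ <;> simp only [eu, ev] <;> ring)
    (by
      intro q c hc
      rcases List.mem_append.1 hc with h | h
      · exact rep_mem hUA _ c h
      · exact rep_mem hVA _ c h)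
  have hdiff : ∀ q, (eu q : ℝ) - ev q = out k q * ((l1 : ℝ) + l2) := by
    intro q
    rcases q with _ | ⟨_ | _, _ | _⟩ <;> simp only [eu, ev, out] <;> push_cast <;> ring
  have hS : ∀ j, vec a ((l1 + k * l2) * (l1 + l2) * j) =
      ((SS k j : ℝ) * (((l1 : ℝ) + l2) * c), 1) := by
    intro j
    induction j with
    | zero => simp [vec, SS]
    | succ j ih =>
      rw [hvec, ih, run_append, run_rep_tr hU, run_rep_tr hV, SS_succ]
      refine Prod.ext ?_ rfl
      have := hdiff (st k j)
      push_cast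
      linear_combination c * this
  have hpos : (0 : ℝ) < ((l1 : ℝ) + l2) * c := by positivity
  have hsign : ∀ j, SignType.sign (recSeq a ((l1 + k * l2) * (l1 + l2) * j)) = 1 ↔
      0 < SS k j := by
    intro j
    rw [← vec_fst, hS, sign_eq_one_iff, mul_pos_iff_of_pos_right hpos, Int.cast_pos]
  refine ⟨a, haA, hak, fun h => ?_⟩
  obtain ⟨c', Q, hc', hQ, hinv⟩ := h.dilate
  refine walk_not_invariant hk c' Q hc' hQ (fun n hn => ?_)
  have h3 := hinv ((l1 + k * l2) * (l1 + l2) * n)
  have e1 : c' * ((l1 + k * l2) * (l1 + l2) * n) = (l1 + k * l2) * (l1 + l2) * (c' * n) := by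
    ring
  have e2 : c' * (Q * ((l1 + k * l2) * (l1 + l2) * n)) =
      (l1 + k * l2) * (l1 + l2) * (c' * (Q * n)) := by ring
  simp only [e1, e2] at h3
  rw [← hsign, ← h3, hsign]
  exact hn

end Pool.Agent.Lib.MP_c55a01_nt.Alph
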